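import Pool.Agent.H2.XY.FIN2

/-!
# MP_26628e_mp: long-range order in the clean bilayer XY model up to temperatures `c / log h`

`Pool/Agent/H2/XY/Prob.lean` contains the definitions of the problem: the Hamiltonian `Hclean`, the
Gibbs expectation on the torus, the correlation `corr L h T x = ⟨cos φ_0 cos φ_x⟩_L`, the property
`LRO h T` and the critical temperature `TcLRO h`.
-/

set_option autoImplicit false

namespace Pool.Agent.Results.MP_26628e_mp.LogTemperature

open XYB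

theorem result (m : ℝ) (hm : m < 1) : ∃ c : ℝ, 0 < c ∧ ∃ h₀ : ℝ, 1 < h₀ ∧ ∀ h : ℝ, h₀ ≤ h →
    (∀ T : ℝ, 0 < T → T ≤ c / Real.log h →
      (∀ x : ℤ × ℤ, ∃ L₀ : ℕ, ∀ L : ℕ, L₀ ≤ L → ∀ [NeZero L], m ≤ corr L h T x) ∧ LRO h T) ∧
    ((c / Real.log h : ℝ) : EReal) ≤ TcLRO h :=
  fin2 m hm

end Pool.Agent.Results.MP_26628e_mp.LogTemperature
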