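import Pool.Agent.H82.BXM.G18

/-!
# MP_26628e_mp: long-range order in the clean bilayer XY model at a temperature not depending on the coupling

`Pool/Agent/H2/XY/Prob.lean` contains the definitions of the problem: the Hamiltonian `Hclean`, the
Gibbs expectation on the torus, the correlation `corr L h T x = ⟨cos φ_0 cos φ_x⟩_L`, the property
`LRO h T` and the critical temperature `TcLRO h`.
-/

set_option autoImplicit false

namespace Pool.Agent.Results.MP_26628e_mp.LongRangeOrder

open XYB

/-- Q1, answer yes, for all `h > 0` and with `T₀ = 1/18`. -/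
theorem result :
    (∀ h : ℝ, 0 < h → ∀ T : ℝ, 0 < T → T ≤ 1 / 18 → LRO h T) ∧
      ∀ h : ℝ, 0 < h → ((1 / 18 : ℝ) : EReal) ≤ TcLRO h := by
  refine ⟨fun h hh T hT hT1 => H82.BX.bx_full h T hh hT hT1, fun h hh => ?_⟩
  exact le_iSup₂_of_le (f := fun (T : ℝ) (_ : T ∈ {T : ℝ | 0 < T ∧ LRO h T}) => (T : EReal))
    (1 / 18) ⟨by norm_num, H82.BX.bx_full h (1 / 18) hh (by norm_num) le_rfl⟩ le_rfl

end Pool.Agent.Results.MP_26628e_mp.LongRangeOrder
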